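import Pool.Agent.H6.AK.Stmts

/-!
# RAT: a ratio of binomial coefficients
-/

set_option autoImplicit false

namespace Pool.Agent.H46.AK

open Pool.Agent.H6.AK

theorem rat_thm : RATStmt := by
  intro n w k hn hkw hwn
  have hn' : (0 : ℝ) < (n : ℝ) := by exact_mod_cast hn
  have h1 : (w + 1 - k) ^ k ≤ w.descFactorial k := Nat.pow_sub_le_descFactorial w k
  have h2 : n.descFactorial k ≤ n ^ k := Nat.descFactorial_le_pow n k
  have h3 : n.choose k * k.factorial = n.descFactorial k := by
    rw [Nat.descFactorial_eq_factorial_mul_choose, mul_comm]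
  have h4 : w.choose k * k.factorial = w.descFactorial k := by
    rw [Nat.descFactorial_eq_factorial_mul_choose, mul_comm]
  have h5 : (w + 1 - k) ^ k * n.choose k * k.factorial ≤ w.choose k * k.factorial * n ^ k := by
    calc (w + 1 - k) ^ k * n.choose k * k.factorial
        = (w + 1 - k) ^ k * (n.choose k * k.factorial) := by ring
      _ ≤ w.descFactorial k * n ^ k := by
          rw [h3]
          exact Nat.mul_le_mul h1 h2
      _ = w.choose k * k.factorial * n ^ k := by rw [h4]
  have h6 : (w + 1 - k) ^ k * n.choose k ≤ w.choose k * n ^ k := by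
    have h7 : 0 < k.factorial := Nat.factorial_pos k
    have h8 : ((w + 1 - k) ^ k * n.choose k) * k.factorial ≤ (w.choose k * n ^ k) * k.factorial := by
      calc ((w + 1 - k) ^ k * n.choose k) * k.factorial
          ≤ w.choose k * k.factorial * n ^ k := h5
        _ = (w.choose k * n ^ k) * k.factorial := by ring
    exact Nat.le_of_mul_le_mul_right h8 h7
  have h9 : (((w + 1 - k : ℕ) : ℝ)) ^ k * ((n.choose k : ℕ) : ℝ) ≤
      ((w.choose k : ℕ) : ℝ) * (n : ℝ) ^ k := by exact_mod_cast h6
  have h10 : (0 : ℝ) < (n : ℝ) ^ k := pow_pos hn' k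
  rw [div_pow, div_mul_eq_mul_div, div_le_iff₀ h10]
  exact h9

end Pool.Agent.H46.AK
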